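import Pool.Agent.H.MP_294a04_nt.B

set_option autoImplicit false

namespace Pool.Agent.H.MP_294a04_nt

/-! ### the uniform multiplicative system -/

def TT (T : ℕ) : Prop := ∃ i : ℕ, T = 4 ^ (i + 2)

theorem TT.ge {T : ℕ} (h : TT T) : 16 ≤ T := by
  obtain ⟨i, rfl⟩ := h
  calc 16 = 4 ^ 2 := by norm_num
    _ ≤ _ := Nat.pow_le_pow_right (by norm_num) (by omega)

theorem TT.gap {T T' : ℕ} (h : TT T) (h' : TT T') (hlt : T < T') : 4 * T ≤ T' := by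
  obtain ⟨i, rfl⟩ := h
  obtain ⟨j, rfl⟩ := h'
  have : i + 2 < j + 2 := (Nat.pow_lt_pow_iff_right (by norm_num)).1 hlt
  calc 4 * 4 ^ (i + 2) = 4 ^ (i + 3) := by ring
    _ ≤ _ := Nat.pow_le_pow_right (by norm_num) (by omega)

theorem TT.uniq {T T' m : ℕ} (h : TT T) (h' : TT T') (a1 : 2 * T + 39 ≤ 3 * m) (a2 : m ≤ 2 * T + 15)
    (b1 : 2 * T' + 39 ≤ 3 * m) (b2 : m ≤ 2 * T' + 15) : T = T' := by
  have := h.ge
  have := h'.ge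
  rcases lt_trichotomy T T' with hl | he | hl
  · have := h.gap h' hl; omega
  · exact he
  · have := h'.gap h hl; omega

def Prim (ρ ζ : ℝ) (m j : ℕ) (c : ℝ) : Prop :=
  ∃ T : ℕ, TT T ∧ ∃ d : ℕ, ∃ p r q : ℤ, 1 ≤ q ∧ |(q : ℝ)| ≤ ρ ^ ((T : ℤ) - j) ∧
    |q * ζ - r| ≤ ρ ^ (-(d : ℤ)) ∧ m + j + d = 15 + 2 * T ∧ j ≤ T ∧ j + d ≤ T + 1 ∧ c = p / q

def Dual (ρ ζ : ℝ) (m u : ℕ) (c : ℝ) : Prop :=
  ∃ T : ℕ, TT T ∧ ∃ α : ℕ, ∃ A B C : ℤ, 1 ≤ u ∧ 3 * u + α ≤ T ∧ A ≠ 0 ∧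
    |(A : ℝ)| ≤ ρ ^ ((α : ℤ) + 1) ∧ |(B : ℝ)| ≤ ρ ^ ((T : ℤ) - 3 * u - α) ∧
    m + u = 13 + T + α ∧ c = -(B * ζ + C) / A

def F1 (ρ ζ : ℝ) (m n : ℕ) (t : Bool × Fin 2) : Set ℝ :=
  {c | ∃ k : ℕ, m = n + 1 + k ∧
    (if t.1 = true then Prim ρ ζ m (2 * k + t.2) c else Dual ρ ζ m (2 * k + t.2) c)}

theorem Prim.mem {ρ ζ : ℝ} {m j : ℕ} {c : ℝ} (h : Prim ρ ζ m j c) :
    ∃ n t, c ∈ F1 ρ ζ m n t := by
  have h' := h
  obtain ⟨T, -, d, p, r, q, -, -, -, e, h1, h2, -⟩ := h'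
  refine ⟨m - 1 - j / 2, (true, ⟨j % 2, Nat.mod_lt _ (by norm_num)⟩), j / 2, by omega, ?_⟩
  simp only [if_true]
  rwa [Nat.div_add_mod]

theorem Dual.mem {ρ ζ : ℝ} {m j : ℕ} {c : ℝ} (h : Dual ρ ζ m j c) :
    ∃ n t, c ∈ F1 ρ ζ m n t := by
  have h' := h
  obtain ⟨T, -, α, A, B, C, -, h1, -, -, -, e, -⟩ := h'
  refine ⟨m - 1 - j / 2, (false, ⟨j % 2, Nat.mod_lt _ (by norm_num)⟩), j / 2, by omega, ?_⟩
  simp only [Bool.false_eq_true, if_false]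
  rwa [Nat.div_add_mod]

theorem mkPrim {ρ ζ : ℝ} (hρ : 4 ≤ ρ) (hζ : Bz ρ ζ) {T j d : ℕ} (hT : TT T) (p r q : ℤ)
    (hq : 1 ≤ q) (h1 : |(q : ℝ)| ≤ ρ ^ ((T : ℤ) - j)) (h2 : |q * ζ - r| ≤ ρ ^ (-(d : ℤ))) :
    ∃ m : ℕ, m + j + d = 15 + 2 * T ∧ Prim ρ ζ m j (p / q) := by
  have a1 := pnz hρ h1 (by omega)
  have a2 := pcmp hρ ((hζ q r (by omega)).trans (pm hρ h1 h2))
  exact ⟨15 + 2 * T - j - d, by omega, T, hT, d, p, r, q, hq, h1, h2, by omega, by omega, by omega, rfl⟩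

theorem nice1 {ρ ζ : ℝ} (hρ : 4 ≤ ρ) (hζ : Bz ρ ζ) : Nice ρ (F1 ρ ζ) := by
  constructor
  · rintro m n t c ⟨k, h, -⟩; omega
  · rintro m n ⟨b, s⟩ x c1 c2 hav ⟨k, e1, o1⟩ ⟨k2, e2, o2⟩ d1 d2
    obtain rfl : k = k2 := by omega
    have hs := s.2
    by_contra hne
    cases b with
    | true =>
      simp only [if_true] at o1 o2
      obtain ⟨T, hT, d, p1, r1, q1, h1, hq1, hd1, m1, j1, jd1, rfl⟩ := o1
      obtain ⟨T2, hT2, d', p2, r2, q2, h2, hq2, hd2, m2, j2, jd2, rfl⟩ := o2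
      obtain rfl : T = T2 := hT.uniq hT2 (m := m) (by omega) (by omega) (by omega) (by omega)
      obtain rfl : d = d' := by omega
      obtain ⟨A, B, C, hB0, hA, hB, hL⟩ := pts_line hρ h1 h2 hq1 hq2 hd1 hd2 d1 d2 hne
      by_cases hA0 : A = 0
      · subst hA0
        have := hζ.line hρ hB0 hB hL
        push_cast at this
        omega
      · obtain ⟨α, ha1, ha2⟩ := pex hρ (one_le_abs hA0)
        have b1 := pcmp hρ (ha1.trans hA)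
        have b2 := pnz hρ hB hB0
        push_cast at b1 b2
        have hD : Dual ρ ζ (13 + T + α - (k + 3)) (k + 3) (-(B * ζ + C) / A) :=
          ⟨T, hT, α, A, B, C, by omega, by omega, hA0, ha2.le,
            hB.trans (pmono hρ (by push_cast; omega)), by omega, rfl⟩
        obtain ⟨n', t', hm⟩ := hD.mem
        have c1 := hav _ (by omega) n' t' _ hm
        have c2 := pcmp hρ (c1.trans (line_close hρ hA0 hL ha1))
        push_cast at c2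
        omega
    | false =>
      simp only [Bool.false_eq_true, if_false] at o1 o2
      obtain ⟨T, hT, α, A1, B1, C1, u1, h1, hA01, hA1, hB1, m1, rfl⟩ := o1
      obtain ⟨T2, hT2, α', A2, B2, C2, u2, h2, hA02, hA2, hB2, m2, rfl⟩ := o2
      obtain rfl : T = T2 := hT.uniq hT2 (m := m) (by omega) (by omega) (by omega) (by omega)
      obtain rfl : α = α' := by omega
      obtain ⟨p, r, q, hq1, hq, hp, hr⟩ := lines_pt hρ hA01 hA02 hA1 hA2 hB1 hB2 d1 d2 (by omega) hne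
      obtain ⟨τ, ht1, ht2⟩ := pex hρ (one_le_abs (show q ≠ 0 by omega))
      have b1 := pcmp hρ (ht1.trans hq)
      push_cast at b1
      obtain ⟨m0, e0, hP⟩ := mkPrim hρ hζ (T := T) (j := T - τ - 1) (d := n - 2 * α - 4) hT p r q hq1
        (ht2.le.trans (pmono hρ (by omega))) (hr.trans (pmono hρ (by omega)))
      obtain ⟨n', t', hm⟩ := hP.mem
      have c1 := hav _ (by omega) n' t' _ hm
      have c2 := pcmp hρ (c1.trans (pt_close hρ hq1 hp ht1))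
      push_cast at c2
      omega

theorem final1 {ρ ζ x : ℝ} (hρ : 4 ≤ ρ) (hζ : Bz ρ ζ)
    (h : ∀ m n t, ∀ c ∈ F1 ρ ζ m n t, ρ ^ (-(m : ℤ)) ≤ |x - c|) (T : ℕ) (hT : TT T)
    (p r q : ℤ) (hq : 1 ≤ q) (hqT : (q : ℝ) ≤ ρ ^ (T : ℤ)) (hr : |q * ζ - r| ≤ 1) :
    ρ ^ (-17 : ℤ) ≤ ρ ^ (T : ℤ) * (|q * x - p| * |q * ζ - r|) := by
  have q1 : (1 : ℝ) ≤ q := by exact_mod_cast hq
  have hδ : 0 < |q * ζ - r| := by
    rw [abs_pos]; intro h0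
    have := hζ q r (by omega)
    rw [h0, mul_zero, abs_zero] at this
    exact absurd (zpow_pos (show 0 < ρ by linarith) (-1)) (not_lt.2 this)
  obtain ⟨d, hd1, hd2⟩ := pex hρ (x := 1 / |q * ζ - r|) (by rw [le_div_iff₀ hδ]; linarith)
  have hρ0 : ρ ≠ 0 := by linarith
  have hd3 : |q * ζ - r| ≤ ρ ^ (-(d : ℤ)) := by
    rw [le_div_iff₀ hδ] at hd1
    rw [zpow_neg, ← one_div, le_div_iff₀ (zpow_pos (by linarith) _)]; linarith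
  have hd4 : ρ ^ (-((d : ℤ) + 1)) ≤ |q * ζ - r| := by
    rw [div_lt_iff₀ hδ] at hd2
    rw [zpow_neg, ← one_div, div_le_iff₀ (zpow_pos (by linarith) _)]; linarith
  obtain ⟨j, hj1, hj2⟩ : ∃ j : ℕ, |(q : ℝ)| ≤ ρ ^ ((T : ℤ) - j) ∧ ρ ^ ((T : ℤ) - j - 1) ≤ q := by
    obtain ⟨τ, ht1, ht2⟩ := pex hρ q1
    have b1 := pcmp hρ (ht1.trans hqT)
    rw [abs_of_pos (by linarith)]
    refine ⟨T - τ - 1, ?_, le_trans (pmono hρ (by omega)) ht1⟩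
    by_cases hτ : τ = T
    · exact hqT.trans (pmono hρ (by omega))
    · exact ht2.le.trans (pmono hρ (by omega))
  obtain ⟨m0, e0, hP⟩ := mkPrim hρ hζ hT p r q hq hj1 hd3
  obtain ⟨n', t', hm⟩ := hP.mem
  have h3 := h _ _ _ _ hm
  have e : |q * x - p| = q * |x - p / q| := by
    rw [← abs_of_pos (show (0 : ℝ) < q by linarith), ← abs_mul, abs_of_pos (show (0 : ℝ) < q by linarith)]
    congr 1; field_simp
  have e2 : ρ ^ (-17 : ℤ) = ρ ^ (T : ℤ) * ((ρ ^ ((T : ℤ) - j - 1) * ρ ^ (-(m0 : ℤ))) *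
      ρ ^ (-((d : ℤ) + 1))) := by
    rw [← zpow_add₀ hρ0, ← zpow_add₀ hρ0, ← zpow_add₀ hρ0]
    congr 1; omega
  have p1 : 0 < ρ ^ (T : ℤ) := zpow_pos (by linarith) _
  have p2 : 0 < ρ ^ ((T : ℤ) - j - 1) := zpow_pos (by linarith) _
  have p3 : 0 < ρ ^ (-(m0 : ℤ)) := zpow_pos (by linarith) _
  have p4 : 0 < ρ ^ (-((d : ℤ) + 1)) := zpow_pos (by linarith) _
  rw [e, e2]
  gcongr

/-! ### the simultaneous system -/

def Prim2 (ρ ζ : ℝ) (m : ℕ) (c : ℝ) : Prop :=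
  ∃ t : ℕ, ∃ p r q : ℤ, 1 ≤ q ∧ |(q : ℝ)| ≤ ρ ^ (2 * (t : ℤ) + 2) ∧
    |q * ζ - r| ≤ ρ ^ (-(8 + (t : ℤ))) ∧ m = 8 + 3 * t ∧ c = p / q

def Dual2 (ρ ζ : ℝ) (m z : ℕ) (c : ℝ) : Prop :=
  ∃ α : ℕ, ∃ A B C : ℤ, A ≠ 0 ∧
    |(A : ℝ)| ≤ ρ ^ ((α : ℤ) + 1) ∧ |(B : ℝ)| ≤ ρ ^ ((α : ℤ) + 1 + z) ∧
    m = 15 + 3 * α + 2 * z ∧ c = -(B * ζ + C) / A

def F2 (ρ ζ : ℝ) (m n : ℕ) (t : Bool × Fin 2) : Set ℝ :=
  {c | ∃ k : ℕ, m = n + 1 + k ∧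
    (if t.1 = true then (k = 0 ∧ Prim2 ρ ζ m c) else Dual2 ρ ζ m (2 * k + t.2) c)}

theorem Prim2.mem {ρ ζ : ℝ} {m : ℕ} {c : ℝ} (h : Prim2 ρ ζ m c) :
    ∃ n t, c ∈ F2 ρ ζ m n t := by
  have h' := h
  obtain ⟨t, p, r, q, -, -, -, e, -⟩ := h'
  refine ⟨m - 1, (true, 0), 0, by omega, ?_⟩
  simp only [if_true, true_and]
  exact h

theorem Dual2.mem {ρ ζ : ℝ} {m j : ℕ} {c : ℝ} (h : Dual2 ρ ζ m j c) :
    ∃ n t, c ∈ F2 ρ ζ m n t := by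
  have h' := h
  obtain ⟨α, A, B, C, -, -, -, e, -⟩ := h'
  refine ⟨m - 1 - j / 2, (false, ⟨j % 2, Nat.mod_lt _ (by norm_num)⟩), j / 2, by omega, ?_⟩
  simp only [Bool.false_eq_true, if_false]
  rwa [Nat.div_add_mod]

theorem nice2 {ρ ζ : ℝ} (hρ : 4 ≤ ρ) (hζ : Bz ρ ζ) : Nice ρ (F2 ρ ζ) := by
  constructor
  · rintro m n t c ⟨k, h, -⟩; omega
  · rintro m n ⟨b, s⟩ x c1 c2 hav ⟨k, e1, o1⟩ ⟨k2, e2, o2⟩ d1 d2
    obtain rfl : k = k2 := by omega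
    have hs := s.2
    by_contra hne
    cases b with
    | true =>
      simp only [if_true] at o1 o2
      obtain ⟨rfl, t, p1, r1, q1, h1, hq1, hd1, m1, rfl⟩ := o1
      obtain ⟨-, t', p2, r2, q2, h2, hq2, hd2, m2, rfl⟩ := o2
      obtain rfl : t = t' := by omega
      obtain ⟨A, B, C, hB0, hA, hB, hL⟩ := pts_line hρ h1 h2 hq1 hq2 hd1 hd2 d1 d2 hne
      by_cases hA0 : A = 0
      · subst hA0
        have := hζ.line hρ hB0 hB hL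
        omega
      · obtain ⟨α, ha1, ha2⟩ := pex hρ (one_le_abs hA0)
        have b1 := pcmp hρ (ha1.trans hA)
        have hD : Dual2 ρ ζ (15 + 3 * α + 2 * (t - 3 - α)) (t - 3 - α) (-(B * ζ + C) / A) :=
          ⟨α, A, B, C, hA0, ha2.le, hB.trans (pmono hρ (by omega)), rfl, rfl⟩
        obtain ⟨n', t', hm⟩ := hD.mem
        have c1 := hav _ (by omega) n' t' _ hm
        have c2 := pcmp hρ (c1.trans (line_close hρ hA0 hL ha1))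
        omega
    | false =>
      simp only [Bool.false_eq_true, if_false] at o1 o2
      obtain ⟨α, A1, B1, C1, hA01, hA1, hB1, m1, rfl⟩ := o1
      obtain ⟨α', A2, B2, C2, hA02, hA2, hB2, m2, rfl⟩ := o2
      obtain rfl : α = α' := by omega
      obtain ⟨p, r, q, hq1, hq, hp, hr⟩ := lines_pt hρ hA01 hA02 hA1 hA2 hB1 hB2 d1 d2 (by omega) hne
      obtain ⟨τ, ht1, ht2⟩ := pex hρ (one_le_abs (show q ≠ 0 by omega))
      have b1 := pcmp hρ (ht1.trans hq)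
      push_cast at b1
      have hP : Prim2 ρ ζ (8 + 3 * (τ / 2)) (p / q) :=
        ⟨τ / 2, p, r, q, hq1, ht2.le.trans (pmono hρ (by omega)), hr.trans (pmono hρ (by omega)),
          rfl, rfl⟩
      obtain ⟨n', t', hm⟩ := hP.mem
      have c1 := hav _ (by omega) n' t' _ hm
      have c2 := pcmp hρ (c1.trans (pt_close hρ hq1 hp ht1))
      push_cast at c2
      omega

theorem final2 {ρ ζ x : ℝ} (hρ : 4 ≤ ρ)
    (h : ∀ m n t, ∀ c ∈ F2 ρ ζ m n t, ρ ^ (-(m : ℤ)) ≤ |x - c|)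
    (p r q : ℤ) (hq : 1 ≤ q) :
    ρ ^ (-8 : ℤ) ≤ Real.sqrt q * max |q * x - p| |q * ζ - r| := by
  have q1 : (1 : ℝ) ≤ q := by exact_mod_cast hq
  have hρ0 : ρ ≠ 0 := by linarith
  obtain ⟨τ, ht1, ht2⟩ := pex hρ q1
  have s1 : ρ ^ ((τ / 2 : ℕ) : ℤ) ≤ Real.sqrt q := by
    apply Real.le_sqrt_of_sq_le
    rw [sq, ← zpow_add₀ hρ0]
    exact le_trans (pmono hρ (by omega)) ht1
  have s2 : ρ ^ (-(8 + ((τ / 2 : ℕ) : ℤ))) ≤ max |q * x - p| |q * ζ - r| := by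
    by_cases hc : |q * ζ - r| ≤ ρ ^ (-(8 + ((τ / 2 : ℕ) : ℤ)))
    · have hP : Prim2 ρ ζ (8 + 3 * (τ / 2)) (p / q) :=
        ⟨τ / 2, p, r, q, hq, by
          rw [abs_of_pos (by linarith)]; exact ht2.le.trans (pmono hρ (by omega)), hc, rfl, rfl⟩
      obtain ⟨n', t', hm⟩ := hP.mem
      have h3 := h _ _ _ _ hm
      have e : |q * x - p| = q * |x - p / q| := by
        rw [← abs_of_pos (show (0 : ℝ) < q by linarith), ← abs_mul,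
          abs_of_pos (show (0 : ℝ) < q by linarith)]
        congr 1; field_simp
      refine le_trans ?_ (le_max_left _ _)
      have p3 : 0 < ρ ^ (-((8 + 3 * (τ / 2) : ℕ) : ℤ)) := zpow_pos (by linarith) _
      rw [e]
      calc _ ≤ ρ ^ (τ : ℤ) * ρ ^ (-((8 + 3 * (τ / 2) : ℕ) : ℤ)) := by
            rw [← zpow_add₀ hρ0]; exact pmono hρ (by omega)
        _ ≤ _ := by gcongr
    · exact le_trans (not_le.1 hc).le (le_max_right _ _)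
  have e2 : ρ ^ (-8 : ℤ) = ρ ^ ((τ / 2 : ℕ) : ℤ) * ρ ^ (-(8 + ((τ / 2 : ℕ) : ℤ))) := by
    rw [← zpow_add₀ hρ0]; congr 1; ring
  have p1 : 0 < ρ ^ (-(8 + ((τ / 2 : ℕ) : ℤ))) := zpow_pos (by linarith) _
  rw [e2]
  gcongr

end Pool.Agent.H.MP_294a04_nt
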