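import Pool.Agent.H.MP_294a04_nt.C

set_option autoImplicit false

namespace Pool.Agent.H.MP_294a04_nt

theorem main (ζ : ℝ) (c : ℝ) (hc : 0 < c)
    (hζ : ∀ q : ℕ, 0 < q → c ≤ q * |q * ζ - round (q * ζ)|) :
    ∃ ξ : ℝ,
      (∃ c' : ℝ, 0 < c' ∧ ∀ q : ℕ, 0 < q → c' ≤ q * |q * ξ - round (q * ξ)|) ∧
      (∃ ε : ℝ, 0 < ε ∧ ∀ N : ℕ, ∃ Q : ℕ, N ≤ Q ∧ 0 < Q ∧
        ∀ q : ℕ, 0 < q → q ≤ Q →
          ε ≤ (Q : ℝ) * (|(q : ℝ) * ξ - (round ((q : ℝ) * ξ) : ℝ)| *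
                          |(q : ℝ) * ζ - (round ((q : ℝ) * ζ) : ℝ)|)) ∧
      (∃ c' : ℝ, 0 < c' ∧ ∀ q : ℕ, 0 < q →
        c' ≤ Real.sqrt (q : ℝ) *
          max |(q : ℝ) * ξ - (round ((q : ℝ) * ξ) : ℝ)|
              |(q : ℝ) * ζ - (round ((q : ℝ) * ζ) : ℝ)|) := by
  obtain ⟨R0, hR0⟩ := exists_nat_ge (1 / c)
  set R : ℕ := R0 + 100 with hR
  have hρ : (4 : ℝ) ≤ R := by rw [hR]; push_cast; have : (0 : ℝ) ≤ R0 := Nat.cast_nonneg _; linarith
  have hc1 : (R : ℝ) ^ (-1 : ℤ) ≤ c := by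
    rw [zpow_neg_one, inv_le_comm₀ (by linarith) hc, ← one_div]
    refine hR0.trans ?_
    rw [hR]; push_cast; linarith
  have hB : Bz (R : ℝ) ζ := by
    have pos : ∀ q r : ℤ, 0 < q → (R : ℝ) ^ (-1 : ℤ) ≤ |(q : ℝ) * (q * ζ - r)| := by
      intro q r hq
      obtain ⟨n, rfl⟩ := Int.eq_ofNat_of_zero_le hq.le
      have h1 := hζ n (by exact_mod_cast hq)
      have h2 := round_le ((n : ℝ) * ζ) r
      rw [abs_mul, Int.cast_natCast, Nat.abs_cast]
      refine hc1.trans (h1.trans ?_)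
      gcongr
    intro q r hq
    rcases lt_or_gt_of_ne hq with h | h
    · have := pos (-q) (-r) (by omega)
      convert this using 2
      push_cast; ring
    · exact pos q r h
  have hN := ((nice0 hρ).sum (nice1 hρ hB)).sum (nice2 hρ hB)
  obtain ⟨x, hx⟩ := cantor R _ (by simp; omega) hN
  have h0 := final0 hρ (x := x) (fun m n t c hc => hx m n (Sum.inl (Sum.inl t)) c hc)
  have h1 := final1 hρ hB (x := x) (fun m n t c hc => hx m n (Sum.inl (Sum.inr t)) c hc)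
  have h2 := final2 hρ (ζ := ζ) (x := x) (fun m n t c hc => hx m n (Sum.inr t) c hc)
  refine ⟨x, ⟨_, zpow_pos (show (0 : ℝ) < R by linarith) (-5), fun q hq => ?_⟩,
    ⟨_, zpow_pos (show (0 : ℝ) < R by linarith) (-17), fun N => ?_⟩,
    ⟨_, zpow_pos (show (0 : ℝ) < R by linarith) (-8), fun q hq => ?_⟩⟩
  · simpa using h0 (round ((q : ℝ) * x)) q (by exact_mod_cast hq)
  · refine ⟨R ^ (4 ^ (N + 2)), ?_, by positivity, fun q hq hqQ => ?_⟩
    · have a1 : N < 4 ^ (N + 2) := (Nat.lt_pow_self (by norm_num)).trans_le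
        (Nat.pow_le_pow_right (by norm_num) (by omega))
      exact (a1.trans (Nat.lt_pow_self (by omega))).le
    · have := h1 (4 ^ (N + 2)) ⟨N, rfl⟩ (round ((q : ℝ) * x)) (round ((q : ℝ) * ζ)) q
        (by exact_mod_cast hq) (by rw [zpow_natCast]; exact_mod_cast hqQ)
        (by simpa using (abs_sub_round ((q : ℝ) * ζ)).trans (by norm_num))
      rw [zpow_natCast] at this
      simpa using this
  · simpa using h2 (round ((q : ℝ) * x)) (round ((q : ℝ) * ζ)) q (by exact_mod_cast hq)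

theorem sqrt_two_bad (q : ℕ) (hq : 0 < q) :
    (1 / 4 : ℝ) ≤ q * |q * Real.sqrt 2 - round (q * Real.sqrt 2)| := by
  set r := round ((q : ℝ) * Real.sqrt 2)
  have h1 : |q * Real.sqrt 2 - r| ≤ 1 / 2 := abs_sub_round _
  have s2 : Real.sqrt 2 ^ 2 = 2 := Real.sq_sqrt (by norm_num)
  have s3 : Real.sqrt 2 ≤ 3 / 2 := by
    apply Real.sqrt_le_iff.2; constructor <;> norm_num
  have s0 : 0 ≤ Real.sqrt 2 := Real.sqrt_nonneg _
  have q1 : (1 : ℝ) ≤ q := by exact_mod_cast hq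
  have hne : (2 * (q : ℤ) ^ 2 - r ^ 2) ≠ 0 := by
    intro h
    have h' : ((2 * (q : ℤ) ^ 2 - r ^ 2 : ℤ) : ℝ) = 0 := by exact_mod_cast h
    push_cast at h'
    apply irrational_sqrt_two
    refine ⟨|(r : ℚ)| / q, ?_⟩
    push_cast
    rw [div_eq_iff (by linarith)]
    have : |(r : ℝ)| ^ 2 = (Real.sqrt 2 * q) ^ 2 := by rw [sq_abs, mul_pow, s2]; linarith
    exact (pow_left_inj₀ (abs_nonneg _) (by positivity) (by norm_num)).1 this
  have h2 := one_le_abs hne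
  have e : ((2 * (q : ℤ) ^ 2 - r ^ 2 : ℤ) : ℝ) = (q * Real.sqrt 2 - r) * (q * Real.sqrt 2 + r) := by
    push_cast; linear_combination (-(q : ℝ) ^ 2) * s2
  rw [e, abs_mul] at h2
  have h3 : |q * Real.sqrt 2 + r| ≤ 4 * q := by
    have := abs_le.1 h1
    rw [abs_le]; constructor <;> nlinarith
  have h4 := abs_nonneg (q * Real.sqrt 2 - r)
  nlinarith

end Pool.Agent.H.MP_294a04_nt
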